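import Pool.Agent.Q152.ProdInter

/-!
MP_57f2ab_co, Q1: for every infinite index set `Q`, every set `X` of positive integers with `1 ∈ X`
is a product intersection set; one countable semigroup realises all of them, for all `Q`.
-/

namespace Pool.Agent.Results.MP_57f2ab_co.AllSetsOccur

open Pool.Agent.Q152.ProdInter

universe u

/-- There is one countable semigroup `S` such that, for every infinite index set `Q`, the sets
`H_Q(A_q)`, for families `(A_q)_{q ∈ Q}` of subsets of `S` with infinitely many distinct members,
are exactly all sets of positive integers that contain `1`. -/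
theorem result : ∃ (S : Type) (_ : Semigroup S), Countable S ∧
    ∀ (Q : Type u) [Infinite Q] (X : Set ℕ), (0 ∉ X ∧ 1 ∈ X) ↔
      ∃ A : Q → Set S, (Set.range A).Infinite ∧ interSet A = X := by
  refine ⟨MU V, inferInstance, inferInstance, fun Q _ X => ⟨?_, ?_⟩⟩
  · rintro ⟨h0, h1⟩
    obtain ⟨f, hf⟩ : ∃ f : Q → ℕ, Function.Surjective f :=
      ⟨Function.invFun (Infinite.natEmbedding Q),
        Function.invFun_surjective (Infinite.natEmbedding Q).injective⟩
    refine ⟨fun q => fam X (f q), ?_, ?_⟩
    · have : Set.range (fun q => fam X (f q)) = Set.range (fam X) := hf.range_comp (fam X)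
      rw [this]
      exact Set.infinite_range_of_injective (fam_injective X)
    · have key : ∀ g : ℕ → Set (MU V), ⋂ q, g (f q) = ⋂ n, g n := fun g => hf.iInf_comp g
      have : interSet (fun q => fam X (f q)) = interSet (fam X) := by
        ext j
        unfold interSet
        rw [Set.mem_ofPred_eq, Set.mem_ofPred_eq, key (fam X), key (fun n => powSet (fam X n) j)]
      rw [this]
      exact interSet_fam X h0 h1
  · rintro ⟨A, -, rfl⟩
    exact ⟨fun h => absurd h.1 (by omega), le_rfl, rfl⟩

end Pool.Agent.Results.MP_57f2ab_co.AllSetsOccur
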